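import Mathlib

/-!
GS-10: lifting elements of order `p` from quotients of finite products of perfect groups.
-/

set_option autoImplicit false

open scoped commutatorElement

namespace Pool.Agent.Helper54.GS

private theorem gs10_pPart {p : ℕ} [hp : Fact p.Prime] {G Q : Type} [Group G] [Finite G] [Group Q]
    (π : G →* Q) (t : Q) (ht : orderOf t = p) (g : G) (hg : π g = t) :
    ∃ g' : G, π g' = t ∧ ∃ a : ℕ, g' ^ (p ^ a) = 1 := by
  have h0 : orderOf g ≠ 0 := (orderOf_pos g).ne'
  obtain ⟨a, m, hm, hgm⟩ := Nat.exists_eq_pow_mul_and_not_dvd h0 p hp.out.ne_one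
  have hcop : Nat.Coprime m p := ((Nat.Prime.coprime_iff_not_dvd hp.out).2 hm).symm
  obtain ⟨k, hk⟩ := Nat.exists_mul_mod_eq_one_of_coprime hcop hp.out.one_lt
  refine ⟨g ^ (m * k), ?_, a, ?_⟩
  · rw [map_pow, hg, ← pow_mod_orderOf, ht, hk.2, pow_one]
  · rw [← pow_mul]
    apply orderOf_dvd_iff_pow_eq_one.1
    rw [hgm]
    exact ⟨k, by ring⟩

private theorem gs10_top {L : Type} [Group L] (hL : commutator L = ⊤) (K : Subgroup L) [K.Normal]
    (z : L) (hz : Subgroup.normalClosure ({z} : Set L) = ⊤) (h : ∀ x : L, ⁅x, z⁆ ∈ K) : K = ⊤ := by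
  have h1 : Subgroup.normalClosure ({z} : Set L) ≤
      (Subgroup.center (L ⧸ K)).comap (QuotientGroup.mk' K) := by
    apply Subgroup.normalClosure_le_normal
    rw [Set.singleton_subset_iff]
    change QuotientGroup.mk' K z ∈ Subgroup.center (L ⧸ K)
    rw [Subgroup.mem_center_iff]
    intro q
    obtain ⟨x, rfl⟩ := QuotientGroup.mk'_surjective K q
    have h2 : QuotientGroup.mk' K ⁅x, z⁆ = 1 := (QuotientGroup.eq_one_iff _).2 (h x)
    rw [map_commutatorElement, commutatorElement_eq_one_iff_mul_comm] at h2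
    exact h2
  rw [eq_top_iff, ← hL, commutator_def, Subgroup.commutator_le]
  intro x _ y _
  have h3 : y ∈ Subgroup.normalClosure ({z} : Set L) := by rw [hz]; trivial
  have h4 := h1 h3
  rw [Subgroup.mem_comap, Subgroup.mem_center_iff] at h4
  have h5 := h4 (QuotientGroup.mk' K x)
  apply (QuotientGroup.eq_one_iff _).1
  change QuotientGroup.mk' K ⁅x, y⁆ = 1
  rw [map_commutatorElement, commutatorElement_eq_one_iff_mul_comm]
  exact h5

/-- GS-10 -/
theorem exists_lift_pi {p : ℕ} [Fact p.Prime] {ι : Type} [Fintype ι] [DecidableEq ι]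
    (L : ι → Type) [∀ i, Group (L i)] [∀ i, Finite (L i)]
    (hL : ∀ i, commutator (L i) = ⊤)
    (hn : ∀ i (τ : L i), orderOf τ = p → Subgroup.normalClosure ({τ} : Set (L i)) = ⊤)
    {Q : Type} [Group Q] (π : (∀ i, L i) →* Q) (hπ : Function.Surjective π) (t : Q)
    (ht : orderOf t = p) :
    ∃ τ : ∀ i, L i, orderOf τ = p ∧ π τ = t := by
  classical
  have hp : p.Prime := Fact.out
  obtain ⟨g₀, hg₀⟩ := hπ t
  obtain ⟨g, hg, a, ha⟩ := gs10_pPart π t ht g₀ hg₀
  have hK : g ^ p ∈ π.ker := by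
    rw [MonoidHom.mem_ker, map_pow, hg, ← ht, pow_orderOf_eq_one]
  have key : ∀ i, (g i) ^ p ≠ 1 → ∀ x : L i, Pi.mulSingle i x ∈ π.ker := by
    intro i hi
    have h1 : (g i) ^ (p ^ a) = 1 := by
      have := congrFun ha i
      simpa using this
    obtain ⟨b, -, hb⟩ := (Nat.dvd_prime_pow hp).1 (orderOf_dvd_of_pow_eq_one h1)
    have hb2 : 2 ≤ b := by
      by_contra hlt
      apply hi
      apply orderOf_dvd_iff_pow_eq_one.1
      rw [hb]
      have : b ≤ 1 := by omega
      simpa using pow_dvd_pow p this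
    obtain ⟨c, rfl⟩ := Nat.exists_eq_add_of_le hb2
    set z : L i := (g i) ^ (p ^ (c + 1)) with hz
    have hzo : orderOf z = p := by
      rw [hz, orderOf_pow, hb]
      have e1 : Nat.gcd (p ^ (2 + c)) (p ^ (c + 1)) = p ^ (c + 1) :=
        Nat.gcd_eq_right (pow_dvd_pow p (by omega))
      rw [e1]
      have e2 : p ^ (2 + c) = p * p ^ (c + 1) := by ring
      rw [e2]
      exact Nat.mul_div_cancel _ (pow_pos hp.pos _)
    have hh : g ^ (p ^ (c + 1)) ∈ π.ker := by
      have : g ^ (p ^ (c + 1)) = (g ^ p) ^ (p ^ c) := by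
        rw [← pow_mul]
        congr 1
        ring
      rw [this]
      exact Subgroup.pow_mem _ hK _
    let K : Subgroup (L i) := π.ker.comap (MonoidHom.mulSingle L i)
    have hKt : K = ⊤ := by
      apply gs10_top (hL i) K z (hn i z hzo)
      intro x
      change Pi.mulSingle i ⁅x, z⁆ ∈ π.ker
      have h2 : (Pi.mulSingle i ⁅x, z⁆ : ∀ j, L j) =
          ⁅(Pi.mulSingle i x : ∀ j, L j), g ^ (p ^ (c + 1))⁆ := by
        funext j
        by_cases hj : j = i
        · subst hj
          simp [commutatorElement_def, hz]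
        · simp [commutatorElement_def, Pi.mulSingle_eq_of_ne hj]
      rw [h2, commutatorElement_def, mul_assoc]
      have h3 : (Pi.mulSingle i x : ∀ j, L j) * (g ^ (p ^ (c + 1))) *
          (Pi.mulSingle i x : ∀ j, L j)⁻¹ ∈ π.ker :=
        (MonoidHom.normal_ker π).conj_mem _ hh _
      have h4 := Subgroup.mul_mem _ h3 (Subgroup.inv_mem _ hh)
      simpa [mul_assoc] using h4
    intro x
    have : x ∈ K := by rw [hKt]; trivial
    exact this
  let τ : ∀ i, L i := fun i => if (g i) ^ p = 1 then g i else 1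
  have hτ1 : τ ^ p = 1 := by
    funext i
    change (τ i) ^ p = 1
    by_cases hi : (g i) ^ p = 1
    · simp only [τ, if_pos hi]
      exact hi
    · simp only [τ, if_neg hi]
      exact one_pow _
  have hτ2 : π τ = t := by
    have h1 : g * τ⁻¹ ∈ π.ker := by
      apply Subgroup.pi_mem_of_mulSingle_mem
      intro i
      by_cases hi : (g i) ^ p = 1
      · have : (g * τ⁻¹) i = 1 := by simp [τ, if_pos hi]
        rw [this, Pi.mulSingle_one]
        exact Subgroup.one_mem _
      · exact key i hi _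
    rw [MonoidHom.mem_ker, map_mul, map_inv, hg, mul_inv_eq_one] at h1
    exact h1.symm
  refine ⟨τ, ?_, hτ2⟩
  apply orderOf_eq_prime hτ1
  intro h1
  rw [h1, map_one] at hτ2
  rw [← hτ2, orderOf_one] at ht
  exact hp.one_lt.ne ht

end Pool.Agent.Helper54.GS
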